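import Pool.Agent.Work.MP_c53807_ag.Hedge.Main

/-!
Sanity check: the known converse. A proper nondegenerate subvariety excludes quasi-affine
intermediate quotients.
-/

open MvPolynomial Kol68
open scoped Matrix LinearAlgebra.Projectivization

namespace Kol54

variable {N : ℕ} {G : Subgroup (GL (Fin N) ℂ)}

/-- A polynomial divided by a power of the determinant. -/
noncomputable def fracFun (p : PM N) (k : ℕ) : NatFun N where
  f R _ _ g := ev (g : Matrix (Fin N) (Fin N) R) p *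
    ((g⁻¹ : GL (Fin N) R) : Matrix (Fin N) (Fin N) R).det ^ k
  nat R S _ _ _ _ φ g := by
    rw [map_mul, map_pow, map_ev, AlgHom.map_det]; rfl

theorem exists_natFun (hG : GLClosed (G : Set (GL (Fin N) ℂ))) (f : G → ℂ)
    (h : ∀ g₁ : G, ∃ a b : PM N, ev ((g₁ : GL (Fin N) ℂ) : Mt N) b ≠ 0 ∧ ∀ g : G,
      ev ((g : GL (Fin N) ℂ) : Mt N) b ≠ 0 →
        f g = ev ((g : GL (Fin N) ℂ) : Mt N) a / ev ((g : GL (Fin N) ℂ) : Mt N) b) :
    ∃ ψ : NatFun N, ∀ g : G, ψ.f ℂ g = f g := by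
  let S : Ideal (PM N) :=
    { carrier := {q | ∃ p : PM N, ∀ g : G,
        ev ((g : GL (Fin N) ℂ) : Mt N) q * f g = ev ((g : GL (Fin N) ℂ) : Mt N) p}
      add_mem' := by
        rintro _ _ ⟨p, hp⟩ ⟨q, hq⟩
        exact ⟨p + q, fun g => by rw [map_add, map_add, add_mul, hp, hq]⟩
      zero_mem' := ⟨0, fun g => by simp⟩
      smul_mem' := by
        rintro c _ ⟨p, hp⟩
        exact ⟨c * p, fun g => by rw [smul_eq_mul, map_mul, map_mul, mul_assoc, hp]⟩ }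
  have h1 : (genM N).det ∈ S.radical := by
    rw [← vanishingIdeal_zeroLocus_eq_radical (K := ℂ), mem_vanishingIdeal_iff]
    intro z hz
    by_contra hne
    let M : Mt N := Matrix.of fun i j => z (i, j)
    have hM : ∀ p : PM N, aeval z p = ev M p := fun _ => rfl
    rw [hM, ev_det] at hne
    let u : GL (Fin N) ℂ := Matrix.GeneralLinearGroup.mkOfDetNeZero M hne
    have hu : u ∈ G := Pt.mem hG fun p hp =>
      hz p ⟨0, fun g => by rw [hp g g.2, zero_mul, map_zero]⟩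
    obtain ⟨a, b, hb, hab⟩ := h ⟨u, hu⟩
    have h2 : ev M (b * b) = 0 := hz _ ⟨a * b, fun g => by
      by_cases e : ev ((g : GL (Fin N) ℂ) : Mt N) b = 0
      · simp [e]
      · rw [hab g e, map_mul, map_mul]; field_simp⟩
    rw [map_mul] at h2
    exact hb (mul_self_eq_zero.1 h2)
  obtain ⟨k, p, hp⟩ := h1
  refine ⟨fracFun p k, fun g => ?_⟩
  change ev _ p * _ ^ k = _
  rw [← hp, map_pow, ev_det, mul_right_comm, ← mul_pow, ← Matrix.det_mul, Units.mul_inv,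
    Matrix.det_one, one_pow, one_mul]

theorem noQuot_of_nondegenerate (hG : GLClosed (G : Set (GL (Fin N) ℂ)))
    (hc : GLConnected (G : Set (GL (Fin N) ℂ))) (x₀ : ℙ ℂ (Fin N → ℂ))
    (Z : Set (ℙ ℂ (Fin N → ℂ))) (hZ : Subvariety Z) (hZX : Z ⊆ orbit G x₀)
    (hnd : ¬ Degenerate G x₀ Z) (K : Subgroup (GL (Fin N) ℂ))
    (hH : ∀ g ∈ G, act g x₀ = x₀ → g ∈ K) (hK : K < G) : ¬ QuasiAffineQuot G K := by
  rintro ⟨n, Y, _, y₀, -, hreg, -, hst⟩
  refine hK.not_ge fun g hg => (hst ⟨g, hg⟩).1 (Subtype.ext (funext fun i => ?_))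
  obtain ⟨ψ, hψ⟩ := exists_natFun hG (fun g => (g • y₀ : Y).1 i) fun g₁ => by
    obtain ⟨a, b, hb, hab⟩ := hreg g₁ y₀ i
    have key : ∀ (g : GL (Fin N) ℂ) (p : MvPolynomial ((Fin N × Fin N) ⊕ Fin n) ℂ),
        ev (g : Mt N) (aeval (Sum.elim X fun j => C (y₀.1 j)) p) = evalPair g y₀ p :=
      fun g p => greg_slice₁ p _ _
    exact ⟨aeval (Sum.elim X fun j => C (y₀.1 j)) a, aeval (Sum.elim X fun j => C (y₀.1 j)) b,
      by rwa [key], fun g hg => by rw [key] at hg; rw [key, key]; exact hab g y₀ hg⟩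
  have h1 := const_of_invariant G hG (isPrime_vanI hG hc) x₀ Z hZ hZX hnd ψ (fun g hg x hx => by
    have h2 := hψ (⟨g, hg⟩ * ⟨x, hx.1⟩)
    rw [mul_smul, (hst ⟨x, hx.1⟩).2 (hH x hx.1 ((act_eq_iff x x₀).2 hx.2))] at h2
    exact h2.trans (hψ ⟨g, hg⟩).symm) g hg
  have h3 := hψ 1
  rw [one_smul] at h3
  exact (hψ ⟨g, hg⟩).symm.trans (h1.trans h3)

end Kol54
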