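import Pool.Agent.Work.MP_c53807_ag.Defs

/-!
Quasi-affine quotients of a matrix group.
-/

namespace Kol54

variable {N : ℕ}

/-- The value of a polynomial in the entries of `g` and the coordinates of `y`. -/
noncomputable def evalPair {n : ℕ} (g : GL (Fin N) ℂ) (y : Fin n → ℂ)
    (p : MvPolynomial ((Fin N × Fin N) ⊕ Fin n) ℂ) : ℂ :=
  MvPolynomial.eval (Sum.elim (fun ij => (g : Matrix (Fin N) (Fin N) ℂ) ij.1 ij.2) y) p

/-- `G / K` is quasi-affine: some locally closed subset `Y` of an affine space carries a transitive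
action of `G` whose coordinates are locally ratios of polynomials, and `K` is the stabiliser of a
point of `Y`. -/
def QuasiAffineQuot (G K : Subgroup (GL (Fin N) ℂ)) : Prop :=
  ∃ (n : ℕ) (Y : Set (Fin n → ℂ)) (_ : MulAction G Y) (y₀ : Y),
    (∃ I J : Ideal (MvPolynomial (Fin n) ℂ),
      Y = MvPolynomial.zeroLocus ℂ I \ MvPolynomial.zeroLocus ℂ J) ∧
    (∀ (g₁ : G) (y₁ : Y) (i : Fin n), ∃ a b : MvPolynomial ((Fin N × Fin N) ⊕ Fin n) ℂ,
      evalPair g₁ y₁ b ≠ 0 ∧ ∀ (g : G) (y : Y), evalPair g y b ≠ 0 →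
        (g • y : Y).1 i = evalPair g y a / evalPair g y b) ∧
    MulAction.IsPretransitive G Y ∧
    ∀ g : G, g • y₀ = y₀ ↔ (g : GL (Fin N) ℂ) ∈ K

end Kol54
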