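import Pool.Agent.Work.MP_c53807_ag.Hedge.Defs
import Pool.Agent.Work.MP_c53807_ag.LowBasic
import Pool.Agent.Work.MP_c53807_ag.End
import Pool.Agent.Work.MP_c53807_ag.Main

-- merged part: Pool.Agent.Work.MP_c53807_ag.Hedge.Coef
section
/-!
Regular functions on the general linear group and the span of the translates of one of them.
-/

open MvPolynomial Kol68
open scoped Matrix

namespace Kol54

variable {N : ℕ}

/-- The entries of `g` together with the inverse of its determinant. -/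
noncomputable def io (g : GL (Fin N) ℂ) : Option (Fin N × Fin N) → ℂ :=
  fun o => o.elim ((g : Mt N).det)⁻¹ fun ij => (g : Mt N) ij.1 ij.2

/-- Regular functions. -/
def RegF (f : GL (Fin N) ℂ → ℂ) : Prop :=
  ∃ P : MvPolynomial (Option (Fin N × Fin N)) ℂ, ∀ g, f g = eval (io g) P

theorem eval_io_rename (g : GL (Fin N) ℂ) (p : PM N) :
    eval (io g) (rename some p) = ev (g : Mt N) p := by
  rw [eval_rename]; rfl

theorem exists_clear (P : MvPolynomial (Option (Fin N × Fin N)) ℂ) :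
    ∃ (k : ℕ) (p : PM N), ∀ g : GL (Fin N) ℂ,
      eval (io g) P * (g : Mt N).det ^ k = ev (g : Mt N) p := by
  induction P using MvPolynomial.induction_on with
  | C c => exact ⟨0, C c, fun g => by simp [ev]⟩
  | add P Q hP hQ =>
    obtain ⟨k, p, hp⟩ := hP
    obtain ⟨l, q, hq⟩ := hQ
    refine ⟨k + l, p * (genM N).det ^ l + q * (genM N).det ^ k, fun g => ?_⟩
    simp only [map_add, map_mul, map_pow, ev_det, ← hp, ← hq]
    ring
  | mul_X P o hP =>
    obtain ⟨k, p, hp⟩ := hP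
    cases o with
    | none =>
      refine ⟨k + 1, p, fun g => ?_⟩
      have := ConstBAux.det_ne g
      rw [map_mul, eval_X, ← hp, io]
      simp only [Option.elim]
      field_simp
      ring
    | some ij =>
      refine ⟨k, p * X ij, fun g => ?_⟩
      rw [map_mul, eval_X, map_mul, ← hp, io]
      simp only [Option.elim, ev, aeval_X]
      ring

theorem regF_nat (φ : NatFun N) : RegF (φ.f ℂ) := by
  obtain ⟨k, p, hp⟩ := φ.univ
  refine ⟨rename some p * X none ^ k, fun g => ?_⟩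
  have := ConstBAux.det_ne g
  rw [map_mul, map_pow, eval_io_rename, eval_X, ← hp, io]
  simp only [Option.elim]
  rw [mul_assoc, ← mul_pow, mul_inv_cancel₀ this, one_pow, mul_one]

theorem RegF.smul {f : GL (Fin N) ℂ → ℂ} (h : RegF f) (c : ℂ) : RegF fun g => c * f g := by
  obtain ⟨P, hP⟩ := h
  exact ⟨C c * P, fun g => by simp [hP]⟩

theorem RegF.sum {ι : Type*} (s : Finset ι) {f : ι → GL (Fin N) ℂ → ℂ} (h : ∀ i, RegF (f i)) :
    RegF fun g => ∑ i ∈ s, f i g := by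
  choose P hP using h
  exact ⟨∑ i ∈ s, P i, fun g => by simp [hP]⟩

/-- A two-sided translate of a regular function. -/
noncomputable def bi (ψ : NatFun N) (y z : GL (Fin N) ℂ) : NatFun N where
  f R _ _ g := ψ.f R (gmap (algebraMap ℂ R) y * g * gmap (algebraMap ℂ R) z)
  nat R S _ _ _ _ φ g := by
    rw [ψ.nat, gmap_mul, gmap_mul, ConstC.gmap_const, ConstC.gmap_const]

theorem regF_bi (ψ : NatFun N) (y z : GL (Fin N) ℂ) : RegF fun g => ψ.f ℂ (y * g * z) :=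
  regF_nat (bi ψ y z)

theorem exists_section {W ι : Type} [AddCommGroup W] [Module ℂ W] [Fintype ι] (c : ι → W) :
    ∃ T : W →ₗ[ℂ] (ι → ℂ), ∀ v ∈ Submodule.span ℂ (Set.range c), v = ∑ i, T v i • c i := by
  classical
  let Φ : (ι → ℂ) →ₗ[ℂ] W := Fintype.linearCombination ℂ c
  obtain ⟨g, hg⟩ := LinearMap.exists_rightInverse_of_surjective Φ.rangeRestrict
    (LinearMap.range_rangeRestrict Φ)
  obtain ⟨T, hT⟩ := LinearMap.exists_extend g
  refine ⟨T, fun v hv => ?_⟩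
  have hj : v ∈ LinearMap.range Φ := by rwa [Fintype.range_linearCombination]
  have h1 : T v = g ⟨v, hj⟩ := LinearMap.congr_fun hT ⟨v, hj⟩
  have h2 : Φ (g ⟨v, hj⟩) = v := congrArg Subtype.val (LinearMap.congr_fun hg ⟨v, hj⟩)
  rw [h1]
  exact h2.symm.trans (Fintype.linearCombination_apply ℂ c _)

theorem exists_evals {α : Type} (V : Submodule ℂ (α → ℂ)) [FiniteDimensional ℂ V]
    (l : (α → ℂ) →ₗ[ℂ] ℂ) : ∃ m : α →₀ ℂ, ∀ v ∈ V, l v = ∑ a ∈ m.support, m a * v a := by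
  have h : l.comp V.subtype ∈ Submodule.span ℂ
      (Set.range fun a : α => (LinearMap.proj a : (α → ℂ) →ₗ[ℂ] ℂ).comp V.subtype) := by
    refine FiniteDimensional.mem_span_of_iInf_ker_le_ker fun v hv => ?_
    have h1 : v = 0 := Subtype.ext (funext fun a => (Submodule.mem_iInf _).1 hv a)
    rw [h1]; exact zero_mem _
  obtain ⟨m, hm⟩ := Finsupp.mem_span_range_iff_exists_finsupp.1 h
  refine ⟨m, fun v hv => ?_⟩
  have h1 := LinearMap.congr_fun hm ⟨v, hv⟩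
  simpa [Finsupp.sum] using h1.symm

theorem exists_coeff (ψ : NatFun N) (G : Subgroup (GL (Fin N) ℂ)) :
    ∃ (n : ℕ) (y : Fin n → G) (c : GL (Fin N) ℂ → Matrix (Fin n) (Fin n) ℂ),
      (∀ i j, RegF fun h => c h i j) ∧
      (∀ (h g : G) (i : Fin n), ψ.f ℂ (y i * (h * g)) = ∑ j, c h i j * ψ.f ℂ (y j * g)) ∧
      ∃ a : Fin n → ℂ, ∀ g : G, ψ.f ℂ g = ∑ j, a j * ψ.f ℂ (y j * g) := by
  classical
  let t : G → G → ℂ := fun y g => ψ.f ℂ (y * g)
  have hfg : (Submodule.span ℂ (Set.range t)).FG := by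
    have h := (ConstBAux.fg_translates ψ G).map
      (LinearMap.funLeft ℂ ℂ (Subtype.val : G → GL (Fin N) ℂ))
    rw [Submodule.map_span] at h
    convert h using 2
    ext f
    constructor
    · rintro ⟨y, rfl⟩
      exact ⟨_, ⟨y, y.2, rfl⟩, rfl⟩
    · rintro ⟨_, ⟨y, hy, rfl⟩, rfl⟩
      exact ⟨⟨y, hy⟩, rfl⟩
  obtain ⟨s, hs, hs'⟩ := (Submodule.fg_span_iff_fg_span_finset_subset _).1 hfg
  have hex : ∀ i : Fin s.card, ∃ y, t y = s.equivFin.symm i := fun i => hs (s.equivFin.symm i).2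
  choose y hy using hex
  have hV : Submodule.span ℂ (Set.range t) = Submodule.span ℂ (Set.range fun i => t (y i)) := by
    rw [hs']
    congr 1
    ext f
    constructor
    · intro hf
      exact ⟨s.equivFin ⟨f, hf⟩, by simp [hy]⟩
    · rintro ⟨i, rfl⟩
      simp [hy]
  obtain ⟨T, hT⟩ := exists_section fun i => t (y i)
  have hT' : ∀ x g : G, ψ.f ℂ (x * g) = ∑ j, T (t x) j * ψ.f ℂ (y j * g) := fun x g => by
    have h := congrFun (hT (t x) (hV ▸ Submodule.subset_span ⟨x, rfl⟩)) g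
    simpa [t] using h
  have : FiniteDimensional ℂ (Submodule.span ℂ (Set.range t)) := Module.Finite.iff_fg.2 hfg
  choose m hm using fun j : Fin s.card => exists_evals (Submodule.span ℂ (Set.range t))
    ((LinearMap.proj j : (Fin s.card → ℂ) →ₗ[ℂ] ℂ).comp T)
  refine ⟨s.card, y, fun h => Matrix.of fun i j =>
    ∑ a ∈ (m j).support, m j a * ψ.f ℂ (y i * h * a), fun i j =>
      RegF.sum _ fun a => (regF_bi ψ _ _).smul _, fun h g i => ?_, fun j => T (t 1) j,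
      fun g => by simpa using hT' 1 g⟩
  have h1 := hT' (y i * h) g
  rw [Subgroup.coe_mul, mul_assoc] at h1
  rw [h1]
  refine Finset.sum_congr rfl fun j _ => ?_
  congr 1
  exact hm j _ (Submodule.subset_span ⟨y i * h, rfl⟩)

end Kol54
end

-- merged part: Pool.Agent.Work.MP_c53807_ag.Hedge.Orbit
section
/-!
Orbits in affine space are locally closed, and stabilisers of vectors have quasi-affine quotients.
-/

open MvPolynomial Kol68
open scoped Matrix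

namespace Kol54

variable {N n : ℕ} {G : Subgroup (GL (Fin N) ℂ)}

theorem prime_io (hirr : (vanI (G : Set (GL (Fin N) ℂ))).IsPrime) :
    (vanishingIdeal ℂ (Set.range fun g : G => io (g : GL (Fin N) ℂ))).IsPrime := by
  refine ⟨fun h => ?_, fun {P Q} h => ?_⟩
  · have h1 : (1 : MvPolynomial (Option (Fin N × Fin N)) ℂ) ∈
        vanishingIdeal ℂ (Set.range fun g : G => io (g : GL (Fin N) ℂ)) := h ▸ Submodule.mem_top
    simpa using (mem_vanishingIdeal_iff.1 h1) _ ⟨1, rfl⟩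
  · obtain ⟨k, p, hp⟩ := exists_clear P
    obtain ⟨l, q, hq⟩ := exists_clear Q
    have h1 : p * q ∈ vanI (G : Set (GL (Fin N) ℂ)) := fun g hg => by
      have h2 : eval (io g) (P * Q) = 0 := (mem_vanishingIdeal_iff.1 h) _ ⟨⟨g, hg⟩, rfl⟩
      rw [map_mul, ← hp, ← hq, mul_mul_mul_comm, ← map_mul, h2, zero_mul]
    refine (hirr.mem_or_mem h1).imp (fun h2 => mem_vanishingIdeal_iff.2 ?_)
      fun h2 => mem_vanishingIdeal_iff.2 ?_
    · rintro _ ⟨g, rfl⟩
      exact (mul_eq_zero.1 ((hp g).trans (h2 g g.2))).resolve_right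
        (pow_ne_zero _ (ConstBAux.det_ne _))
    · rintro _ ⟨g, rfl⟩
      exact (mul_eq_zero.1 ((hq g).trans (h2 g g.2))).resolve_right
        (pow_ne_zero _ (ConstBAux.det_ne _))

theorem mem_range_io (hG : GLClosed (G : Set (GL (Fin N) ℂ))) {z : Option (Fin N × Fin N) → ℂ}
    (hz : ∀ f ∈ vanishingIdeal ℂ (Set.range fun g : G => io (g : GL (Fin N) ℂ)), eval z f = 0) :
    ∃ g : G, io (g : GL (Fin N) ℂ) = z := by
  let M : Mt N := Matrix.of fun i j => z (some (i, j))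
  have hM : ∀ p : PM N, eval z (rename some p) = ev M p := fun p => by rw [eval_rename]; rfl
  have h1 := hz (X none * rename some (genM N).det - 1) (mem_vanishingIdeal_iff.2 (by
    rintro _ ⟨g, rfl⟩
    change eval (io _) _ = 0
    rw [map_sub, map_mul, eval_io_rename, ev_det, eval_X, map_one, io]
    simp only [Option.elim]
    rw [inv_mul_cancel₀ (ConstBAux.det_ne _), sub_self]))
  rw [map_sub, map_mul, hM, ev_det, eval_X, map_one, sub_eq_zero] at h1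
  let u : GL (Fin N) ℂ := Matrix.GeneralLinearGroup.mkOfDetNeZero M (right_ne_zero_of_mul_eq_one h1)
  have hu : u ∈ G := Pt.mem hG fun p hp => by
    refine (hM p).symm.trans (hz _ (mem_vanishingIdeal_iff.2 ?_))
    rintro _ ⟨g, rfl⟩
    exact (eval_io_rename _ p).trans (hp g g.2)
  refine ⟨⟨u, hu⟩, funext fun o => ?_⟩
  cases o with
  | none => exact (eq_inv_of_mul_eq_one_left h1).symm
  | some ij => rfl

theorem exists_lin (M : Matrix (Fin n) (Fin n) ℂ) (b : MvPolynomial (Fin n) ℂ) :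
    ∃ b' : MvPolynomial (Fin n) ℂ, ∀ w, eval w b' = eval (M *ᵥ w) b := by
  refine ⟨aeval (fun i => ∑ j, C (M i j) * X j) b, fun w => ?_⟩
  change aeval w _ = aeval _ b
  rw [← AlgHom.comp_apply, comp_aeval]
  congr 2
  ext i
  simp [Matrix.mulVec, dotProduct]

theorem lc_orbit (hG : GLClosed (G : Set (GL (Fin N) ℂ)))
    (hirr : (vanI (G : Set (GL (Fin N) ℂ))).IsPrime) {π : GL (Fin N) ℂ → Fin n → ℂ}
    (hπ : ∀ i, RegF fun g => π g i) {c : GL (Fin N) ℂ → Matrix (Fin n) (Fin n) ℂ}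
    (hc : ∀ h g : G, π (h * g) = c h *ᵥ π g) :
    ∃ I J : Ideal (MvPolynomial (Fin n) ℂ),
      (Set.range fun g : G => π g) = zeroLocus ℂ I \ zeroLocus ℂ J := by
  choose P hP using hπ
  have := prime_io hirr
  obtain ⟨r, hr, h⟩ := GCh.gen_pts (vanishingIdeal ℂ (Set.range fun g : G =>
    io (g : GL (Fin N) ℂ))) P
  rw [mem_vanishingIdeal_iff] at hr
  push Not at hr
  obtain ⟨_, ⟨g₀, rfl⟩, hr⟩ := hr
  have hev : ∀ g : GL (Fin N) ℂ, evv (io g) P = π g := fun g => funext fun i => (hP i g).symm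
  obtain ⟨b, hb, h⟩ := h 1 (io (g₀ : GL (Fin N) ℂ))
    (fun f hf => mem_vanishingIdeal_iff.1 hf _ ⟨g₀, rfl⟩) (by rwa [mul_one])
  rw [hev] at hb
  set Y := Set.range fun g : G => π g
  have key : ∀ w ∈ zeroLocus ℂ (vanishingIdeal ℂ Y), eval w b ≠ 0 → w ∈ Y := fun w hw hwb => by
    obtain ⟨z, hz, -, rfl⟩ := h w (fun f hf => hw f (mem_vanishingIdeal_iff.2 (by
      rintro _ ⟨g, rfl⟩
      have h1 : eval (io (g : GL (Fin N) ℂ)) (aeval P f) = 0 :=
        mem_vanishingIdeal_iff.1 hf _ ⟨g, rfl⟩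
      rwa [GZ.eval_aeval, hev] at h1))) hwb
    obtain ⟨g, rfl⟩ := mem_range_io hG hz
    exact ⟨g, (hev _).symm⟩
  refine ⟨vanishingIdeal ℂ Y, vanishingIdeal ℂ (zeroLocus ℂ (vanishingIdeal ℂ Y) \ Y),
    Set.ext fun w => ⟨fun hw => ⟨zeroLocus_vanishingIdeal_le Y hw, ?_⟩, fun hw => ?_⟩⟩
  · obtain ⟨g, rfl⟩ := hw
    obtain ⟨q, hq⟩ := exists_lin (c (g₀ * g⁻¹ : G)) b
    intro hw
    have h1 : q ∈ vanishingIdeal ℂ (zeroLocus ℂ (vanishingIdeal ℂ Y) \ Y) := by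
      refine mem_vanishingIdeal_iff.2 fun z hz => ?_
      by_contra hne
      have h2 : c (g₀ * g⁻¹ : G) *ᵥ z ∈ zeroLocus ℂ (vanishingIdeal ℂ Y) := fun f hf => by
        obtain ⟨f', hf'⟩ := exists_lin (c (g₀ * g⁻¹ : G)) f
        refine (hf' z).symm.trans (hz.1 f' (mem_vanishingIdeal_iff.2 ?_))
        rintro _ ⟨x, rfl⟩
        refine (hf' _).trans ?_
        rw [← hc]
        exact mem_vanishingIdeal_iff.1 hf _ ⟨g₀ * g⁻¹ * x, rfl⟩
      obtain ⟨g', hg'⟩ := key _ h2 (hq z ▸ hne)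
      refine hz.2 ⟨(g₀ * g⁻¹)⁻¹ * g', funext fun i => ?_⟩
      obtain ⟨l, hl⟩ := exists_lin (c ((g₀ * g⁻¹)⁻¹ : G) * c (g₀ * g⁻¹ : G)) (X i)
      have h3 := hz.1 (l - X i) (mem_vanishingIdeal_iff.2 (by
        rintro _ ⟨x, rfl⟩
        change eval _ _ = 0
        rw [map_sub, hl, eval_X, eval_X, ← Matrix.mulVec_mulVec, ← hc, ← Subgroup.coe_mul, ← hc,
          ← Subgroup.coe_mul, inv_mul_cancel_left, sub_self]))
      change eval _ _ = 0 at h3
      rw [map_sub, hl, eval_X, eval_X, ← Matrix.mulVec_mulVec, ← hg', ← hc, sub_eq_zero] at h3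
      exact h3
    have h4 : eval (π g) q = 0 := hw q h1
    rw [hq, ← hc, ← Subgroup.coe_mul, inv_mul_cancel_right] at h4
    exact hb h4
  · by_contra h1
    exact hw.2 (zeroLocus_vanishingIdeal_le _ ⟨hw.1, h1⟩)

theorem evalPair_inl (g : GL (Fin N) ℂ) (y : Fin n → ℂ) (p : PM N) :
    evalPair g y (rename Sum.inl p) = ev (g : Mt N) p := by
  rw [evalPair, eval_rename]; rfl

theorem common_clear {f : Fin n → GL (Fin N) ℂ → ℂ} (h : ∀ j, RegF (f j)) :
    ∃ (k : ℕ) (p : Fin n → PM N), ∀ j (g : GL (Fin N) ℂ),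
      f j g * (g : Mt N).det ^ k = ev (g : Mt N) (p j) := by
  choose P hP using h
  choose k p hp using fun j => exists_clear (P j)
  refine ⟨∑ j, k j, fun j => p j * (genM N).det ^ (∑ j, k j - k j), fun j g => ?_⟩
  have h1 : k j ≤ ∑ j, k j := Finset.single_le_sum (fun _ _ => Nat.zero_le _) (Finset.mem_univ j)
  rw [map_mul, map_pow, ev_det, ← hp, hP, mul_assoc, ← pow_add, Nat.add_sub_cancel' h1]

theorem quasiAffine (hG : GLClosed (G : Set (GL (Fin N) ℂ)))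
    (hirr : (vanI (G : Set (GL (Fin N) ℂ))).IsPrime) {π : GL (Fin N) ℂ → Fin n → ℂ}
    (hπ : ∀ i, RegF fun g => π g i) {c : GL (Fin N) ℂ → Matrix (Fin n) (Fin n) ℂ}
    (hc : ∀ h g : G, π (h * g) = c h *ᵥ π g) (hc' : ∀ i j, RegF fun h => c h i j)
    {K : Subgroup (GL (Fin N) ℂ)} (hK : ∀ g : G, π g = π 1 ↔ (g : GL (Fin N) ℂ) ∈ K) :
    QuasiAffineQuot G K := by
  let Y := Set.range fun g : G => π g
  let _ : MulAction G Y :=
    { smul := fun h y => ⟨c h *ᵥ y.1, by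
        obtain ⟨g, hg⟩ := y.2
        exact ⟨h * g, (hc h g).trans (congrArg _ hg)⟩⟩
      one_smul := by
        rintro ⟨_, g, rfl⟩
        exact Subtype.ext ((hc 1 g).symm.trans (by simp))
      mul_smul := by
        rintro h h' ⟨_, g, rfl⟩
        refine Subtype.ext ((hc (h * h') g).symm.trans ?_)
        change _ = c h *ᵥ (c h' *ᵥ π g)
        rw [← hc h' g]
        refine Eq.trans ?_ (hc h (h' * g))
        simp [mul_assoc] }
  have hs : ∀ (h : G) (y : Y), (h • y).1 = c h *ᵥ y.1 := fun _ _ => rfl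
  refine ⟨n, Y, inferInstance, ⟨π (1 : G), 1, rfl⟩, lc_orbit hG hirr hπ hc, fun g₁ y₁ i => ?_,
    ⟨?_⟩, fun g => ?_⟩
  · obtain ⟨k, p, hp⟩ := common_clear (hc' i)
    have hb : ∀ (g : GL (Fin N) ℂ) (y : Fin n → ℂ),
        evalPair g y (rename Sum.inl ((genM N).det ^ k)) = (g : Mt N).det ^ k := fun g y => by
      rw [evalPair_inl, map_pow, ev_det]
    refine ⟨∑ j, rename Sum.inl (p j) * X (Sum.inr j), rename Sum.inl ((genM N).det ^ k),
      by rw [hb]; exact pow_ne_zero _ (ConstBAux.det_ne _), fun g y h => ?_⟩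
    rw [eq_div_iff h, hb, hs, evalPair, map_sum, Matrix.mulVec, dotProduct, Finset.sum_mul]
    refine Finset.sum_congr rfl fun j _ => ?_
    rw [map_mul, eval_X, ← evalPair, evalPair_inl, ← hp, Sum.elim_inr]
    ring
  · rintro ⟨_, g, rfl⟩ ⟨_, g', rfl⟩
    refine ⟨g' * g⁻¹, Subtype.ext ((hc _ g).symm.trans ?_)⟩
    simp
  · rw [← hK, Subtype.ext_iff, hs, ← hc]
    simp

end Kol54
end

-- merged part: Pool.Agent.Work.MP_c53807_ag.Hedge.Main
section
/-!
If no intermediate quotient is quasi-affine, the orbit contains a nondegenerate rational curve.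
-/

open MvPolynomial Kol68
open scoped Matrix LinearAlgebra.Projectivization

namespace Kol54

variable {N : ℕ} {G : Subgroup (GL (Fin N) ℂ)}

/-- The elements of `G` at which `π` takes the value `π 1`. -/
def fixSub {n : ℕ} {π : GL (Fin N) ℂ → Fin n → ℂ} {c : GL (Fin N) ℂ → Matrix (Fin n) (Fin n) ℂ}
    (hc : ∀ h g : G, π (h * g) = c h *ᵥ π g) : Subgroup (GL (Fin N) ℂ) where
  carrier := {k | k ∈ G ∧ π k = π 1}
  one_mem' := ⟨G.one_mem, rfl⟩
  mul_mem' := by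
    rintro k k' ⟨hk, e⟩ ⟨hk', e'⟩
    have h1 : π (k * k') = c k *ᵥ π k' := hc ⟨k, hk⟩ ⟨k', hk'⟩
    have h2 : π (k * 1) = c k *ᵥ π 1 := hc ⟨k, hk⟩ 1
    exact ⟨G.mul_mem hk hk', by rw [h1, e', ← h2, mul_one, e]⟩
  inv_mem' := by
    rintro k ⟨hk, e⟩
    have h1 : π (k⁻¹ * k) = c k⁻¹ *ᵥ π k := hc ⟨k, hk⟩⁻¹ ⟨k, hk⟩
    have h2 : π (k⁻¹ * 1) = c k⁻¹ *ᵥ π 1 := hc ⟨k, hk⟩⁻¹ 1
    rw [e, ← h2, mul_one, inv_mul_cancel] at h1
    exact ⟨G.inv_mem hk, h1.symm⟩

theorem closed_level (hG : GLClosed (G : Set (GL (Fin N) ℂ))) {n : ℕ}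
    {π : GL (Fin N) ℂ → Fin n → ℂ} (hπ : ∀ i, RegF fun g => π g i) (w : Fin n → ℂ) :
    GLClosed {k | k ∈ G ∧ π k = w} := by
  obtain ⟨S, hS⟩ := hG
  obtain ⟨k, p, hp⟩ := common_clear hπ
  have key : ∀ (g : GL (Fin N) ℂ) (i : Fin n),
      evalAt g (p i - C (w i) * (genM N).det ^ k) = 0 ↔ π g i = w i := fun g i => by
    rw [evalAt_eq, map_sub, map_mul, map_pow, ev_det, ← hp, ev, aeval_C,
      Algebra.algebraMap_self, RingHom.id_apply, sub_eq_zero,
      mul_left_inj' (pow_ne_zero k (ConstBAux.det_ne _))]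
  refine ⟨S ∪ Set.range fun i => p i - C (w i) * (genM N).det ^ k, Set.ext fun g => ?_⟩
  have hg : g ∈ G ↔ ∀ q ∈ S, evalAt g q = 0 := Set.ext_iff.1 hS g
  constructor
  · rintro ⟨h1, h2⟩ q (hq | ⟨i, rfl⟩)
    · exact hg.1 h1 q hq
    · exact (key g i).2 (congrFun h2 i)
  · intro h1
    refine ⟨hg.2 fun q hq => h1 q (Or.inl hq), funext fun i => (key g i).1 ?_⟩
    exact h1 _ (Or.inr (Set.mem_range_self i))

theorem const_of_noQuot (hG : GLClosed (G : Set (GL (Fin N) ℂ)))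
    (hirr : (vanI (G : Set (GL (Fin N) ℂ))).IsPrime) {H : Subgroup (GL (Fin N) ℂ)} (hH : H ≤ G)
    (h : ∀ K : Subgroup (GL (Fin N) ℂ), GLClosed (K : Set (GL (Fin N) ℂ)) → H ≤ K → K < G →
      ¬ QuasiAffineQuot G K)
    (ψ : NatFun N) (hψ : ∀ g ∈ G, ∀ x ∈ H, ψ.f ℂ (g * x) = ψ.f ℂ g) :
    ∀ g ∈ G, ψ.f ℂ g = ψ.f ℂ 1 := by
  obtain ⟨n, y, c, hc', hc, a, ha⟩ := exists_coeff ψ G
  obtain ⟨π, hπ'⟩ : ∃ π : GL (Fin N) ℂ → Fin n → ℂ, ∀ g i, π g i = ψ.f ℂ (y i * g) :=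
    ⟨_, fun _ _ => rfl⟩
  have hπ : ∀ i, RegF fun g => π g i := fun i => by
    simp only [hπ']; exact regF_nat (ConstBAux.lt ψ (y i))
  have hcπ : ∀ h g : G, π (h * g) = c h *ᵥ π g := fun h g => funext fun i => by
    simp only [Matrix.mulVec, dotProduct, hπ']; exact hc h g i
  have hGK : G ≤ fixSub hcπ := by
    by_contra hn
    refine h (fixSub hcπ) (closed_level hG hπ (π 1)) (fun x hx => ⟨hH hx, funext fun i => ?_⟩)
      (lt_of_le_not_ge (fun _ hk => hk.1) hn)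
      (quasiAffine hG hirr hπ hcπ hc' fun g => ⟨fun e => ⟨g.2, e⟩, fun e => e.2⟩)
    rw [hπ', hπ', hψ _ (y i).2 x hx, mul_one]
  intro g hg
  refine (ha ⟨g, hg⟩).trans (Eq.trans ?_ (ha 1).symm)
  refine Finset.sum_congr rfl fun j _ => congrArg _ ?_
  exact (hπ' _ _).symm.trans ((congrFun (hGK hg).2 j).trans (hπ' _ _))

open ConstC in
theorem epi_of_inv (hirr : (vanI (G : Set (GL (Fin N) ℂ))).IsPrime) (v : Fin N → ℂ)
    (h : ∀ ψ : NatFun N, (∀ g ∈ G, ∀ x ∈ stabG G v, ψ.f ℂ (g * x) = ψ.f ℂ g) →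
      ∀ g ∈ G, ψ.f ℂ g = ψ.f ℂ 1) : Epi G v := by
  classical
  intro φ hφ
  have hfin := finite_tr G v φ hφ
  let T := hfin.toFinset
  have hT : ∀ f, f ∈ T ↔ ∃ z, tr G v φ z = f := fun f => hfin.mem_toFinset
  let z : (G → ℂ) → GL (Fin N) ℂ := fun f =>
    if h : ∃ y, tr G v φ y = f then (h.choose : GL (Fin N) ℂ) else 1
  have hz : ∀ f ∈ T, ∀ g : G, φ.f ℂ (g * z f) = f g := fun f hf g => by
    have h := (hT f).1 hf
    have h1 : z f = (h.choose : GL (Fin N) ℂ) := dif_pos h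
    rw [h1]
    exact congrFun h.choose_spec g
  have hval : ∀ (c : ℂ) (g : G), (prodFun φ T z c).f ℂ g = ∏ f ∈ T, (c - f g) := fun c g =>
    Finset.prod_congr rfl fun f hf => by rw [gmap_self, hz f hf]; rfl
  have hmap : ∀ (x : stabG G v), ∀ f ∈ T,
      (fun g : G => f (g * ⟨x, stabG_le G _ x.2⟩)) ∈ T := fun x f hf => by
    obtain ⟨y, rfl⟩ := (hT f).1 hf
    refine (hT _).2 ⟨x * y, ?_⟩
    funext g
    simp only [tr, Subgroup.coe_mul, mul_assoc]
  have hinv : ∀ c : ℂ, ∀ g ∈ G, ∀ x ∈ stabG G v,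
      (prodFun φ T z c).f ℂ (g * x) = (prodFun φ T z c).f ℂ g := fun c g hg x hx => by
    have e1 := hval c (⟨g, hg⟩ * ⟨x, stabG_le G _ hx⟩)
    have e2 := hval c ⟨g, hg⟩
    refine e1.trans (Eq.trans ?_ e2.symm)
    refine Finset.prod_nbij' (fun f g => f (g * ⟨x, stabG_le G _ hx⟩))
      (fun f g => f (g * ⟨x⁻¹, stabG_le G _ ((stabG G _).inv_mem hx)⟩))
      (fun f hf => hmap ⟨x, hx⟩ f hf) (fun f hf => hmap ⟨x⁻¹, (stabG G _).inv_mem hx⟩ f hf)
      (fun f _ => ?_) (fun f _ => ?_) (fun f _ => rfl)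
    · funext g; exact congrArg f (Subtype.ext (by simp))
    · funext g; exact congrArg f (Subtype.ext (by simp))
  refine const_of_finite G hirr φ T (fun f => f 1) fun g hg => ?_
  have h1 := h _ (hinv (φ.f ℂ g)) g hg
  have e1 := hval (φ.f ℂ g) ⟨g, hg⟩
  have e2 := hval (φ.f ℂ g) 1
  refine e2.symm.trans (h1.symm.trans (e1.trans ?_))
  refine Finset.prod_eq_zero ((hT _).2 ⟨1, rfl⟩) ?_
  simp [tr]

theorem curve_of_epi (hG : GLClosed (G : Set (GL (Fin N) ℂ)))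
    (hirr : (vanI (G : Set (GL (Fin N) ℂ))).IsPrime) (x₀ : ℙ ℂ (Fin N → ℂ))
    (hx : ∃ g ∈ G, act g x₀ ≠ x₀) (epi : Epi G x₀.rep) :
    ∃ C, SmoothRationalCurve C ∧ C ⊆ orbit G x₀ ∧ ¬ Degenerate G x₀ C := by
  obtain ⟨C, h₁, h₂, h₃, h₄⟩ := exists_goodCurve hG hirr x₀ hx epi
  refine ⟨C, h₁, h₂, ?_⟩
  rintro ⟨K, hK, hHK, hKG, g, hg, hC⟩
  have hst : stabG G x₀.rep ≤ K := fun y hy => hHK y hy.1 ((act_eq_iff y x₀).2 hy.2)
  obtain ⟨k, hk, e⟩ := hC x₀ h₃
  have hgK : g ∈ K := by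
    have := K.mul_mem (hHK _ (G.mul_mem hg (hKG.le hk)) e.symm) (K.inv_mem hk)
    rwa [mul_inv_cancel_right] at this
  have h5 := h₄ K hst hKG.le fun z hz => by
    obtain ⟨k', hk', e'⟩ := hC z hz
    exact ⟨g * k', K.mul_mem hgK hk', e'⟩
  refine hKG.not_ge fun y hy => Pt.mem hK ((pt_iff K y).2 (pres_self.2 ?_))
  exact gst_of_st hirr epi ((grpB K).sub (subG K)) (fun ξ hξ => h5 hξ) y hy

theorem main (hG : GLClosed (G : Set (GL (Fin N) ℂ)))
    (hc : GLConnected (G : Set (GL (Fin N) ℂ))) (x₀ : ℙ ℂ (Fin N → ℂ))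
    (hx : ∃ g ∈ G, act g x₀ ≠ x₀)
    (h : ∀ K : Subgroup (GL (Fin N) ℂ), GLClosed (K : Set (GL (Fin N) ℂ)) →
      (∀ g ∈ G, act g x₀ = x₀ → g ∈ K) → K < G → ¬ QuasiAffineQuot G K) :
    ∃ C, SmoothRationalCurve C ∧ C ⊆ orbit G x₀ ∧ ¬ Degenerate G x₀ C :=
  have hirr := isPrime_vanI hG hc
  curve_of_epi hG hirr x₀ hx (epi_of_inv hirr _ (const_of_noQuot hG hirr (stabG_le G _)
    fun K hK hH => h K hK fun g hg e => hH ⟨hg, (act_eq_iff g x₀).1 e⟩))

end Kol54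
end
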